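import Pool.Agent.H21.CST.S1

set_option autoImplicit false

namespace Pool.CST

open MvPolynomial Finset

theorem st_sub (δ m : ℕ) (Z : Finset (Fin (δ + 1) → ℕ)) : st δ m Z ⊆ Z := by
  classical
  unfold st
  exact filter_subset _ _

theorem st_iter_sub (δ m i : ℕ) (Z : Finset (Fin (δ + 1) → ℕ)) : (st δ m)^[i] Z ⊆ Z := by
  induction i with
  | zero => exact Subset.refl _
  | succ i ih =>
    rw [Function.iterate_succ_apply']
    exact (st_sub _ _ _).trans ih

theorem mem_st {δ m : ℕ} {Z : Finset (Fin (δ + 1) → ℕ)} {u : Fin (δ + 1) → ℕ} :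
    u ∈ st δ m Z ↔ u ∈ Z ∧ ∀ q : MvPolynomial (Fin (δ + 1)) ℂ, q.totalDegree < m →
      (∀ a ∈ Z, Bef δ a u → ev a q = 0) → ev u q = 0 := by
  classical
  unfold st
  rw [mem_filter]

theorem mem_sl {δ z : ℕ} {Z : Finset (Fin (δ + 2) → ℕ)} {b : Fin (δ + 1) → ℕ} :
    b ∈ sl δ z Z ↔ (Fin.cons z b : Fin (δ + 2) → ℕ) ∈ Z := by
  unfold sl
  rw [mem_image]
  constructor
  · rintro ⟨a, ha, rfl⟩
    rw [mem_filter] at ha
    rw [← ha.2, Fin.cons_self_tail]
    exact ha.1
  · intro h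
    exact ⟨Fin.cons z b, mem_filter.2 ⟨h, Fin.cons_zero _ _⟩, Fin.tail_cons _ _⟩

/-- one step in dimension one -/
theorem kil_zero_step (m N : ℕ) (Z : Finset (Fin 1 → ℕ)) (h : ∀ a ∈ Z, a 0 < N + m) :
    ∀ a ∈ st 0 m Z, a 0 < N := by
  classical
  intro u hu
  rw [mem_st] at hu
  by_contra hn
  set B := Z.filter fun a => u 0 < a 0 with hB
  have hcard : B.card < m := by
    have h1 : B.card ≤ (Ioo (u 0) (N + m)).card := by
      refine card_le_card_of_injOn (fun a => a 0) ?_ ?_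
      · intro a ha
        have := mem_filter.1 (mem_coe.1 ha)
        exact mem_coe.2 (mem_Ioo.2 ⟨this.2, h a this.1⟩)
      · intro a _ b _ hab
        funext i
        rw [Subsingleton.elim i 0]
        exact hab
    rw [Nat.card_Ioo] at h1
    have hm : u 0 < N + m := h u hu.1
    omega
  set q : MvPolynomial (Fin 1) ℂ := ∏ b ∈ B, (X 0 - C ((b 0 : ℕ) : ℂ)) with hq
  have hdeg : q.totalDegree < m := by
    refine lt_of_le_of_lt (totalDegree_finsetProd _ _) ?_
    refine lt_of_le_of_lt (sum_le_card_nsmul _ _ 1 ?_) ?_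
    · intro b _
      refine (totalDegree_sub _ _).trans ?_
      rw [totalDegree_X, totalDegree_C]
      simp
    · simpa using hcard
  have hz : ev u q = 0 := by
    refine hu.2 q hdeg ?_
    intro a ha hau
    unfold ev
    rw [hq, map_prod]
    refine prod_eq_zero (mem_filter.2 ⟨ha, hau⟩ : a ∈ B) ?_
    simp
  unfold ev at hz
  rw [hq, map_prod, prod_eq_zero_iff] at hz
  obtain ⟨b, hb, hb0⟩ := hz
  have hb1 := (mem_filter.1 hb).2
  simp only [map_sub, eval_X, eval_C, sub_eq_zero, Nat.cast_inj] at hb0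
  omega

theorem kil_zero (m k l : ℕ) : ∀ (p : Fin 1 → ℕ) (Z : Finset (Fin 1 → ℕ)),
    (∀ a ∈ Z, Bx 0 p (k * m) (l * m) a) → (st 0 m)^[XX 0 k l] Z = ∅ := by
  intro p Z h
  have key : ∀ (l : ℕ) (Z : Finset (Fin 1 → ℕ)), (∀ a ∈ Z, p 0 ≤ a 0) →
      (∀ a ∈ Z, a 0 < p 0 + l * m) → (st 0 m)^[l] Z = ∅ := by
    intro l
    induction l with
    | zero =>
      intro Z h1 h2
      rw [Function.iterate_zero, id, eq_empty_iff_forall_notMem]
      intro a ha
      have h3 := h1 a ha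
      have h4 := h2 a ha
      omega
    | succ l ih =>
      intro Z h1 h2
      rw [Function.iterate_succ_apply]
      refine ih _ (fun a ha => h1 a (st_sub _ _ _ ha)) ?_
      refine kil_zero_step m (p 0 + l * m) Z fun a ha => ?_
      have := h2 a ha
      rw [Nat.succ_mul] at this
      omega
  exact key l Z (fun a ha => (h a ha).1 0) (fun a ha => (h a ha).2.2)

theorem win_of_kil (MNO : MNOStmt) (LAY : LAYStmt) (δ : ℕ)
    (hk : ∀ (m k l : ℕ) (p : Fin (δ + 1) → ℕ) (Z : Finset (Fin (δ + 1) → ℕ)),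
      (∀ a ∈ Z, Bx δ p (k * m) (l * m) a) → (st δ m)^[XX δ k l] Z = ∅)
    (m k l c : ℕ) (p : Fin (δ + 1) → ℕ) (Z : Finset (Fin (δ + 2) → ℕ))
    (hc : ∀ a ∈ Z, c ≤ a 0)
    (hb : ∀ a ∈ Z, a 0 < c + (m / 2 + 1) →
      Bx δ p (k * ((m + 1) / 2)) (l * ((m + 1) / 2)) (Fin.tail a)) :
    ∀ a ∈ (st (δ + 1) m)^[XX δ k l] Z, c + (m / 2 + 1) ≤ a 0 := by
  have key : ∀ z, z < c + (m / 2 + 1) → ∀ i,
      sl δ z ((st (δ + 1) m)^[i] Z) ⊆ (st δ ((m + 1) / 2))^[i] (sl δ z Z) := by
    intro z hz i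
    induction i with
    | zero => exact Subset.refl _
    | succ i ih =>
      rw [Function.iterate_succ_apply', Function.iterate_succ_apply']
      refine (LAY δ m c z _ fun a ha => hc a (st_iter_sub _ _ _ _ ha)).trans ?_
      exact MNO δ _ _ _ _ ih (by omega)
  intro a ha
  by_contra hn
  have h1 := key (a 0) (by omega) (XX δ k l)
  have h2 : Fin.tail a ∈ sl δ (a 0) ((st (δ + 1) m)^[XX δ k l] Z) := by
    rw [mem_sl, Fin.cons_self_tail]
    exact ha
  have h3 := h1 h2
  rw [hk ((m + 1) / 2) k l p] at h3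
  · exact notMem_empty _ h3
  · intro b hb'
    rw [mem_sl] at hb'
    have := hb _ hb' (by rw [Fin.cons_zero]; omega)
    rwa [Fin.tail_cons] at this

theorem kil_succ (MNO : MNOStmt) (LAY : LAYStmt) (δ : ℕ)
    (hk : ∀ (m k l : ℕ) (p : Fin (δ + 1) → ℕ) (Z : Finset (Fin (δ + 1) → ℕ)),
      (∀ a ∈ Z, Bx δ p (k * m) (l * m) a) → (st δ m)^[XX δ k l] Z = ∅)
    (m k l : ℕ) (p : Fin (δ + 2) → ℕ) (Z : Finset (Fin (δ + 2) → ℕ))
    (h : ∀ a ∈ Z, Bx (δ + 1) p (k * m) (l * m) a) :
    (st (δ + 1) m)^[XX (δ + 1) k l] Z = ∅ := by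
  have key : ∀ i, ∀ a ∈ (st (δ + 1) m)^[i * XX δ (2 * k) (2 * l)] Z,
      p 0 + i * (m / 2 + 1) ≤ a 0 := by
    intro i
    induction i with
    | zero =>
      intro a ha
      rw [Nat.zero_mul, Function.iterate_zero, id] at ha
      have := (h a ha).1 0
      omega
    | succ i ih =>
      rw [Nat.succ_mul, Nat.add_comm (i * XX δ (2 * k) (2 * l)), Function.iterate_add_apply]
      have := win_of_kil MNO LAY δ hk m (2 * k) (2 * l) (p 0 + i * (m / 2 + 1)) (Fin.tail p) _ ih ?_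
      · intro a ha
        have h1 := this a ha
        rw [Nat.succ_mul]
        omega
      · intro a ha _
        obtain ⟨h1, h2, h3⟩ := h a (st_iter_sub _ _ _ _ ha)
        refine ⟨fun j => h1 j.succ, fun j => ?_, ?_⟩
        · have h4 : a j.castSucc.succ < p j.castSucc.succ + k * m := h2 j.succ
          have h5 : k * m ≤ 2 * k * ((m + 1) / 2) := by
            have : m ≤ 2 * ((m + 1) / 2) := by omega
            calc k * m ≤ k * (2 * ((m + 1) / 2)) := Nat.mul_le_mul_left _ this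
              _ = _ := by ring
          unfold Fin.tail
          omega
        · have h4 : a (Fin.last δ).succ < p (Fin.last δ).succ + l * m := h3
          have h5 : l * m ≤ 2 * l * ((m + 1) / 2) := by
            have : m ≤ 2 * ((m + 1) / 2) := by omega
            calc l * m ≤ l * (2 * ((m + 1) / 2)) := Nat.mul_le_mul_left _ this
              _ = _ := by ring
          unfold Fin.tail
          omega
  rw [eq_empty_iff_forall_notMem]
  intro a ha
  have h1 := key (2 * k) a ha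
  have h2 : a 0 < p 0 + k * m := (h a (st_iter_sub _ _ _ _ ha)).2.1 0
  have h3 : k * m ≤ 2 * k * (m / 2 + 1) := by
    have : m ≤ 2 * (m / 2 + 1) := by omega
    calc k * m ≤ k * (2 * (m / 2 + 1)) := Nat.mul_le_mul_left _ this
      _ = _ := by ring
  omega

theorem t_kil (MNO : MNOStmt) (LAY : LAYStmt) : KILStmt := by
  intro δ
  induction δ with
  | zero => exact fun m k l p Z h => kil_zero m k l p Z h
  | succ δ ih => exact fun m k l p Z h => kil_succ MNO LAY δ ih m k l p Z h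

theorem t_win (MNO : MNOStmt) (LAY : LAYStmt) : WINStmt :=
  fun δ m k l c p Z hc hb => win_of_kil MNO LAY δ (t_kil MNO LAY δ) m k l c p Z hc hb

end Pool.CST
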